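import Mathlib
import Pool.Agent.Work.MP_d3656f_al.M.CG

/-!
# H/MorA : stability of quasigeodesics, first half (Morse lemma)

`QG M A L m w`: the points `w 0, ..., w m` satisfy
`q (w i) (w j) ≤ A * 2^(L (j-i))` and `2^(j-i) ≤ A * q (w i) (w j)^L` for `i ≤ j ≤ m`.

`morA`: for all `A L C` there is `M0` such that for every `QG` and every `p` with
`Bt C (w 0) p (w m)` some `w i`, `i ≤ m`, satisfies `q p (w i) ≤ M0`.

Proof. Enlarge `C` so that `C ≥ C0^2`, `C ≥ 1`, `C0` from `cg`. Let `X = w 0`, `Y = w m`,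
`S = {p : G | Bt C (pt X) (pt p) (pt Y)}`; it contains `X, Y` and is finite because
`q X p ≤ C q X Y` for `p ∈ S`. For `p ∈ G` let `D p = min_{i ≤ m} q p (w i)`. Let `p ∈ S` maximise
`D` on `S`, `D p = T`. We bound `T` (assume `T ≥ 1` large). In the following `c1, c2, ...` depend
only on the model, `A, L, C`.
1. Left point `q1 ∈ S`. If `q X p < T^2` let `q1 = X`, `i1 = 0` (so `w i1 = q1`). Otherwise apply
   `cg` to `X`, `Y` and `s1 = q X p / T^2 ≥ 1` (`s1 ≤ q X Y` if `T^2 ≥ C`, as `q X p ≤ C q X Y`):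
   `q X q1 ≤ C0 s1`, `s1 ≤ 4 C0 q X q1`, `Bt (C0^2) X q1 Y`; so `q1 ∈ S`, and let `i1 ≤ m` be such
   that `q q1 (w i1) = D q1 ≤ T`. By `ratio` (in `S`: `q X p ≤ 4 C0 T^2 q X q1` and
   `q X q1 ≤ C0 q X p`) one gets `q p q1 ≤ c1 T^2`. In both cases `q p q1 ≤ c1 T^2`.
2. Right point `q2 ∈ S`. `s2 = T^2 q X p`. If `s2 > q X Y` let `q2 = Y`, `i2 = m`; here
   `q p Y ≤ C q X Y / q X p ≤ C T^2`. Otherwise take `q2` from `cg` for `s2`; again
   `q p q2 ≤ c1 T^2` by `ratio`, `q2 ∈ S`, `q q2 (w i2) = D q2 ≤ T`.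
3. By `q_tri`, `q (w i1) (w i2) ≤ 64 T c1 T^2 c1 T^2 T`, so `2^|i1 - i2| ≤ c2 T^(6 L)`, i.e.
   `|i1 - i2| ≤ 6 L log2 T + c3`.
4. Visual distance from `p`: for consecutive `i, i+1` between `i1` and `i2`,
   `del p (w i) (w (i+1))^2 = q (w i) (w (i+1)) / (q p (w i) q p (w (i+1))) ≤ A 2^L / T^2`.
   Moreover `del p q1 (w i1)^2 ≤ T / (q p q1 * T) = 1 / q p q1 ≤ 4 C0 / T^2` when `q1 ≠ X` case
   (because `q X p ≤ 4 q X q1 q q1 p` gives `q p q1 ≥ T^2 / (4 C0)`); in the case `q1 = X` we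
   have `w i1 = q1` and no jump is needed. The same for `q2`: `q X q2 ≤ 4 q X p q p q2` and
   `q X q2 ≥ s2 / (4 C0)` give `q p q2 ≥ T^2 / (16 C0)`.
   By `del_tri`, `del p q1 q2 ≤ (6 L log2 T + c3) √(A 2^L) / T + 2 √(16 C0) / T`
   (when a jump is not needed start directly at `w i1`, resp. stop at `w i2`).
5. Lower bound: `q X Y ≤ 16 q X q1 q q1 q2 q q2 Y`. With `a1 = q X q1`, `a2 = q q2 Y`:
   * both from `cg`: `a1 ≤ C0 q X p / T^2`, `a2 ≤ C0 q X Y / (T^2 q X p)`, so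
     `q q1 q2 ≥ T^4 / (16 C0^2)`, while `q p q1 * q p q2 ≤ c1^2 T^4`;
   * `q1 = X`, `q2` from `cg`: `q q1 q2 ≥ q X Y / (4 a2) ≥ T^2 q X p / (4 C0)` and
     `q p q1 * q p q2 ≤ q X p * c1 T^2`;
   * `q1` from `cg`, `q2 = Y`: `q q1 q2 ≥ q X Y / (4 a1) ≥ T^2 q X Y / (4 C0 q X p)` and
     `q p q1 * q p Y ≤ c1 T^2 * C q X Y / q X p`;
   * `q1 = X`, `q2 = Y`: `q X Y ≥ q X p * q p Y / C`.
   In all cases `del p q1 q2 ≥ c4 > 0`. With 4 this bounds `T`.
-/

set_option autoImplicit false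

namespace Pool.Agent.Work.MP_d3656f_al

private theorem MorA_bound (a b c : ℝ) (K : ℕ) : ∃ M0 : ℝ, ∀ (T : ℝ) (n : ℕ), 0 ≤ T →
    (2 : ℝ) ^ n ≤ c * T ^ K → T ≤ a + b * n → T ≤ M0 := by
  have h1 := (tendsto_pow_const_div_const_pow_of_one_lt K (one_lt_two : (1 : ℝ) < 2)).const_mul
    (|c| * (|a| + |b|) ^ K)
  rw [mul_zero] at h1
  obtain ⟨N0, hN0⟩ := Filter.eventually_atTop.1 (h1.eventually_lt_const zero_lt_one)
  refine ⟨|a| + |b| * (max N0 1 : ℕ), fun T n hT h2 h3 => ?_⟩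
  have h4 : T ≤ |a| + |b| * n := by
    have := le_abs_self a
    have h5 : b * n ≤ |b| * n := mul_le_mul_of_nonneg_right (le_abs_self b) (Nat.cast_nonneg n)
    linarith
  by_cases hn : n ≤ max N0 1
  · have h5 : |b| * (n : ℝ) ≤ |b| * (max N0 1 : ℕ) :=
      mul_le_mul_of_nonneg_left (Nat.cast_le.2 hn) (abs_nonneg b)
    linarith
  · exfalso
    have hn1 : 1 ≤ n := by
      have := le_max_right N0 1
      omega
    have hn0 : N0 ≤ n := by
      have := le_max_left N0 1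
      omega
    have hn1' : (1 : ℝ) ≤ n := by exact_mod_cast hn1
    have h6 : T ≤ (|a| + |b|) * n := by
      nlinarith [abs_nonneg a, abs_nonneg b]
    have h7 : T ^ K ≤ ((|a| + |b|) * n) ^ K := pow_le_pow_left₀ hT h6 K
    have h8 := hN0 n hn0
    have h9 : (0 : ℝ) < 2 ^ n := by positivity
    have h10 : |c| * (|a| + |b|) ^ K * ((n : ℝ) ^ K / 2 ^ n) =
        |c| * ((|a| + |b|) * n) ^ K / 2 ^ n := by
      rw [mul_pow]
      ring
    rw [h10, div_lt_one h9] at h8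
    have h11 : c * T ^ K ≤ |c| * ((|a| + |b|) * n) ^ K := by
      calc c * T ^ K ≤ |c| * T ^ K := mul_le_mul_of_nonneg_right (le_abs_self c) (by positivity)
        _ ≤ _ := mul_le_mul_of_nonneg_left h7 (abs_nonneg c)
    linarith

private theorem MorA_del {v x y : V} {t : ℝ} (ht : 0 ≤ t) (h0 : 0 < Q v x * Q v y)
    (h : Q x y ≤ t ^ 2 * (Q v x * Q v y)) : del v x y ≤ t := by
  unfold del
  refine Real.sqrt_le_iff.2 ⟨ht, ?_⟩
  rw [div_le_iff₀ h0]
  exact h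

private theorem MorA_del_ge {v x y : V} {c : ℝ} (hc : 0 < c) (h0 : 0 < Q v x * Q v y)
    (h : Q v x * Q v y ≤ c * Q x y) : 1 ≤ Real.sqrt c * del v x y := by
  unfold del
  rw [← Real.sqrt_mul hc.le, Real.one_le_sqrt, mul_div_assoc', le_div_iff₀ h0, one_mul]
  exact h

namespace Model

variable {G : Type} [Group G] (M : Model G)

/-- Quasigeodesic sequences. -/
def QG (A : ℝ) (L m : ℕ) (w : ℕ → G) : Prop :=
  ∀ i j, i ≤ j → j ≤ m → M.q (w i) (w j) ≤ A * 2 ^ (L * (j - i)) ∧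
    (2 : ℝ) ^ (j - i) ≤ A * (M.q (w i) (w j)) ^ L

private theorem MorA_pos (u v : G) : 0 < M.q u v := lt_of_lt_of_le one_pos (M.one_le_q u v)

private theorem MorA_left {C0 C T : ℝ} (hC0 : 1 ≤ C0) (hC : C0 ^ 2 ≤ C) (hT : C ≤ T)
    (hcg : ∀ (x : G) (y : V) (s : ℝ), 1 ≤ s →
      (y ∈ Bd ∨ (y ∈ Hyp ∧ s ≤ Q (M.pt x) y)) →
      ∃ z : G, M.q x z ≤ C0 * s ∧ s ≤ 4 * C0 * M.q x z ∧ s * Q (M.pt z) y ≤ C0 * Q (M.pt x) y ∧
        Bt (C0 ^ 2) (M.pt x) (M.pt z) y)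
    {X Y p : G} (hp : Bt C (M.pt X) (M.pt p) (M.pt Y)) :
    ∃ q1 : G, Bt C (M.pt X) (M.pt q1) (M.pt Y) ∧ M.q p q1 ≤ 16 * C * C0 * T ^ 2 ∧
      (q1 = X ∨ (T ^ 2 * M.q X q1 ≤ C0 * M.q X p ∧ T ^ 2 ≤ 4 * C0 * M.q p q1)) := by
  have hC1 : 1 ≤ C := le_trans (by nlinarith) hC
  have hT1 : 1 ≤ T := hC1.trans hT
  have hT2 : 0 < T ^ 2 := by positivity
  have hp' : M.q X p * M.q p Y ≤ C * M.q X Y := hp
  have hXp := M.one_le_q X p
  have hpY := M.one_le_q p Y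
  have hXY := M.one_le_q X Y
  by_cases hlt : M.q X p < T ^ 2
  · refine ⟨X, ?_, ?_, Or.inl rfl⟩
    · change M.q X X * M.q X Y ≤ C * M.q X Y
      rw [M.q_self]
      nlinarith
    · rw [M.q_symm p X]
      have : 1 ≤ 16 * C * C0 := by nlinarith
      nlinarith
  · push Not at hlt
    have hs1 : 1 ≤ M.q X p / T ^ 2 := by rwa [le_div_iff₀ hT2, one_mul]
    have hs2 : M.q X p / T ^ 2 ≤ Q (M.pt X) (M.pt Y) := by
      change M.q X p / T ^ 2 ≤ M.q X Y
      rw [div_le_iff₀ hT2]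
      have h1 : M.q X p ≤ C * M.q X Y := by nlinarith
      have h2 : C ≤ T ^ 2 := by nlinarith
      nlinarith
    obtain ⟨z, z1, z2, z3, z4⟩ := hcg X (M.pt Y) _ hs1 (Or.inr ⟨M.pt_hyp Y, hs2⟩)
    have z1' : T ^ 2 * M.q X z ≤ C0 * M.q X p := by
      have : T ^ 2 * (C0 * (M.q X p / T ^ 2)) = C0 * M.q X p := by
        field_simp
      rw [← this]
      exact mul_le_mul_of_nonneg_left z1 hT2.le
    have z2' : M.q X p ≤ 4 * C0 * T ^ 2 * M.q X z := by
      rw [div_le_iff₀ hT2] at z2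
      linarith
    have hXz := M.one_le_q X z
    have hz4 : Bt C (M.pt X) (M.pt z) (M.pt Y) :=
      Bt_mono hC (M.pt_cone X) (M.pt_cone Y) z4
    have hT3 : 1 ≤ T ^ 2 := by nlinarith
    refine ⟨z, hz4, ?_, Or.inr ⟨z1', ?_⟩⟩
    · have hr := ratio (r := 4 * C0 * T ^ 2) (M.pt_hyp X) (M.pt_hyp p) (M.pt_hyp z)
        (M.pt_cone Y) hp hz4 z2' (by
          change M.q X z ≤ 4 * C0 * T ^ 2 * M.q X p
          have h5 : M.q X z ≤ T ^ 2 * M.q X z := by nlinarith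
          have h6 : C0 * M.q X p ≤ 4 * C0 * T ^ 2 * M.q X p := by
            have : C0 ≤ 4 * C0 * T ^ 2 := by nlinarith
            exact mul_le_mul_of_nonneg_right this (by linarith)
          linarith)
      change M.q p z ≤ _
      have h7 : 4 * C * (4 * C0 * T ^ 2) = 16 * C * C0 * T ^ 2 := by ring
      rw [← h7]
      exact hr
    · have h8 := M.q_tri X z p
      rw [M.q_symm z p] at h8
      have h9 : T ^ 2 * M.q X p ≤ 4 * C0 * M.q p z * M.q X p := by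
        have hpz := M.MorA_pos p z
        calc T ^ 2 * M.q X p ≤ T ^ 2 * (4 * (M.q X z * M.q p z)) :=
              mul_le_mul_of_nonneg_left h8 hT2.le
          _ = 4 * M.q p z * (T ^ 2 * M.q X z) := by ring
          _ ≤ 4 * M.q p z * (C0 * M.q X p) := mul_le_mul_of_nonneg_left z1' (by positivity)
          _ = _ := by ring
      exact le_of_mul_le_mul_right h9 (by linarith)

private theorem MorA_right {C0 C T : ℝ} (hC0 : 1 ≤ C0) (hC : C0 ^ 2 ≤ C) (hT : C ≤ T)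
    (hcg : ∀ (x : G) (y : V) (s : ℝ), 1 ≤ s →
      (y ∈ Bd ∨ (y ∈ Hyp ∧ s ≤ Q (M.pt x) y)) →
      ∃ z : G, M.q x z ≤ C0 * s ∧ s ≤ 4 * C0 * M.q x z ∧ s * Q (M.pt z) y ≤ C0 * Q (M.pt x) y ∧
        Bt (C0 ^ 2) (M.pt x) (M.pt z) y)
    {X Y p : G} (hp : Bt C (M.pt X) (M.pt p) (M.pt Y)) :
    ∃ q2 : G, Bt C (M.pt X) (M.pt q2) (M.pt Y) ∧ M.q p q2 ≤ 16 * C * C0 * T ^ 2 ∧
      (q2 = Y ∨ (T ^ 2 * M.q X p * M.q q2 Y ≤ C0 * M.q X Y ∧ T ^ 2 ≤ 16 * C0 * M.q p q2)) := by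
  have hC1 : 1 ≤ C := le_trans (by nlinarith) hC
  have hT1 : 1 ≤ T := hC1.trans hT
  have hT2 : 0 < T ^ 2 := by positivity
  have hT3 : 1 ≤ T ^ 2 := by nlinarith
  have hp' : M.q X p * M.q p Y ≤ C * M.q X Y := hp
  have hXp := M.one_le_q X p
  have hpY := M.one_le_q p Y
  have hXY := M.one_le_q X Y
  by_cases hlt : M.q X Y < T ^ 2 * M.q X p
  · refine ⟨Y, ?_, ?_, Or.inl rfl⟩
    · change M.q X Y * M.q Y Y ≤ C * M.q X Y
      rw [M.q_self]
      nlinarith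
    · have h1 : M.q X p * M.q p Y ≤ M.q X p * (C * T ^ 2) := by nlinarith
      have h2 : M.q p Y ≤ C * T ^ 2 := le_of_mul_le_mul_left h1 (by linarith)
      have h3 : C * T ^ 2 ≤ 16 * C * C0 * T ^ 2 := by
        have : C ≤ 16 * C * C0 := by nlinarith
        exact mul_le_mul_of_nonneg_right this hT2.le
      linarith
  · push Not at hlt
    have hs1 : 1 ≤ T ^ 2 * M.q X p := by nlinarith
    obtain ⟨z, z1, z2, z3, z4⟩ := hcg X (M.pt Y) _ hs1 (Or.inr ⟨M.pt_hyp Y, hlt⟩)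
    have hXz := M.one_le_q X z
    have hz4 : Bt C (M.pt X) (M.pt z) (M.pt Y) :=
      Bt_mono hC (M.pt_cone X) (M.pt_cone Y) z4
    refine ⟨z, hz4, ?_, Or.inr ⟨z3, ?_⟩⟩
    · have hr := ratio (r := 4 * C0 * T ^ 2) (M.pt_hyp X) (M.pt_hyp p) (M.pt_hyp z)
        (M.pt_cone Y) hp hz4 (by
          change M.q X p ≤ 4 * C0 * T ^ 2 * M.q X z
          have h5 : M.q X p ≤ T ^ 2 * M.q X p := by nlinarith
          have h6 : 4 * C0 * M.q X z ≤ 4 * C0 * T ^ 2 * M.q X z := by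
            have : 4 * C0 ≤ 4 * C0 * T ^ 2 := by nlinarith
            exact mul_le_mul_of_nonneg_right this (by linarith)
          linarith) (by
          change M.q X z ≤ 4 * C0 * T ^ 2 * M.q X p
          have h6 : 0 ≤ C0 * (T ^ 2 * M.q X p) := by positivity
          linarith)
      change M.q p z ≤ _
      have h7 : 4 * C * (4 * C0 * T ^ 2) = 16 * C * C0 * T ^ 2 := by ring
      rw [← h7]
      exact hr
    · have h8 := M.q_tri X p z
      have h9 : T ^ 2 * M.q X p ≤ 16 * C0 * M.q p z * M.q X p := by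
        calc T ^ 2 * M.q X p ≤ 4 * C0 * M.q X z := z2
          _ ≤ 4 * C0 * (4 * (M.q X p * M.q p z)) := mul_le_mul_of_nonneg_left h8 (by positivity)
          _ = _ := by ring
      exact le_of_mul_le_mul_right h9 (by linarith)

/-- the middle point is between the left and the right point -/
private theorem MorA_btw {C0 C c T : ℝ} (hC0 : 1 ≤ C0) (hC : 1 ≤ C) (hc : 1 ≤ c) (hT : 1 ≤ T)
    {X Y p q1 q2 : G} (hp : Bt C (M.pt X) (M.pt p) (M.pt Y))
    (h1 : M.q p q1 ≤ c * T ^ 2) (h2 : M.q p q2 ≤ c * T ^ 2)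
    (h1' : q1 = X ∨ (T ^ 2 * M.q X q1 ≤ C0 * M.q X p ∧ T ^ 2 ≤ 4 * C0 * M.q p q1))
    (h2' : q2 = Y ∨ (T ^ 2 * M.q X p * M.q q2 Y ≤ C0 * M.q X Y ∧ T ^ 2 ≤ 16 * C0 * M.q p q2)) :
    M.q p q1 * M.q p q2 ≤ 64 * C * C0 ^ 2 * c ^ 2 * M.q q1 q2 := by
  have hT2 : 0 < T ^ 2 := by positivity
  have hp' : M.q X p * M.q p Y ≤ C * M.q X Y := hp
  have e0 := M.MorA_pos X p
  have f0 := M.MorA_pos p Y
  have g0 := M.MorA_pos X Y
  have b0 := M.MorA_pos p q1
  have k0 := M.MorA_pos p q2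
  have hh0 := M.MorA_pos q1 Y
  have n0 := M.MorA_pos q1 q2
  have l0 := M.MorA_pos q2 Y
  have a0 := M.MorA_pos X q1
  -- claim A
  have hA : M.q p q1 * M.q p Y ≤ 4 * C * C0 * c * M.q q1 Y := by
    rcases h1' with rfl | ⟨h3, -⟩
    · rw [M.q_symm p q1]
      have : C ≤ 4 * C * C0 * c := by
        have h5 : 1 ≤ C0 * c := by nlinarith
        nlinarith
      nlinarith
    · have h4 := M.q_tri X q1 Y
      have h5 : M.q p Y * T ^ 2 ≤ 4 * C * C0 * M.q q1 Y := by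
        have h6 : M.q X p * (M.q p Y * T ^ 2) ≤ M.q X p * (4 * C * C0 * M.q q1 Y) := by
          calc M.q X p * (M.q p Y * T ^ 2) = (M.q X p * M.q p Y) * T ^ 2 := by ring
            _ ≤ (C * M.q X Y) * T ^ 2 := mul_le_mul_of_nonneg_right hp' hT2.le
            _ ≤ (C * (4 * (M.q X q1 * M.q q1 Y))) * T ^ 2 :=
                mul_le_mul_of_nonneg_right (mul_le_mul_of_nonneg_left h4 (by linarith)) hT2.le
            _ = (4 * C * M.q q1 Y) * (T ^ 2 * M.q X q1) := by ring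
            _ ≤ (4 * C * M.q q1 Y) * (C0 * M.q X p) :=
                mul_le_mul_of_nonneg_left h3 (by positivity)
            _ = _ := by ring
        exact le_of_mul_le_mul_left h6 e0
      calc M.q p q1 * M.q p Y ≤ (c * T ^ 2) * M.q p Y := mul_le_mul_of_nonneg_right h1 f0.le
        _ = c * (M.q p Y * T ^ 2) := by ring
        _ ≤ c * (4 * C * C0 * M.q q1 Y) := mul_le_mul_of_nonneg_left h5 (by linarith)
        _ = _ := by ring
  rcases h2' with rfl | ⟨h3, -⟩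
  · have h5 : 4 * C * C0 * c ≤ 64 * C * C0 ^ 2 * c ^ 2 := by
      have h6 : 1 ≤ C0 * c := by nlinarith
      have h7 : C * (C0 * c) ≤ C * (C0 * c) * (C0 * c) := by
        have : 0 ≤ C * (C0 * c) := by positivity
        nlinarith
      nlinarith
    exact hA.trans (mul_le_mul_of_nonneg_right h5 hh0.le)
  · have h4 := M.q_tri q1 q2 Y
    have h5 := M.q_tri X p Y
    have h6 : T ^ 2 * M.q q2 Y ≤ 4 * C0 * M.q p Y := by
      have h7 : M.q X p * (T ^ 2 * M.q q2 Y) ≤ M.q X p * (4 * C0 * M.q p Y) := by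
        calc M.q X p * (T ^ 2 * M.q q2 Y) = T ^ 2 * M.q X p * M.q q2 Y := by ring
          _ ≤ C0 * M.q X Y := h3
          _ ≤ C0 * (4 * (M.q X p * M.q p Y)) := mul_le_mul_of_nonneg_left h5 (by linarith)
          _ = _ := by ring
      exact le_of_mul_le_mul_left h7 e0
    have h8 : M.q p q1 * T ^ 2 ≤ 64 * C * C0 ^ 2 * c * M.q q1 q2 := by
      have h9 : M.q p Y * (M.q p q1 * T ^ 2) ≤ M.q p Y * (64 * C * C0 ^ 2 * c * M.q q1 q2) := by
        calc M.q p Y * (M.q p q1 * T ^ 2) = (M.q p q1 * M.q p Y) * T ^ 2 := by ring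
          _ ≤ (4 * C * C0 * c * M.q q1 Y) * T ^ 2 := mul_le_mul_of_nonneg_right hA hT2.le
          _ ≤ (4 * C * C0 * c * (4 * (M.q q1 q2 * M.q q2 Y))) * T ^ 2 :=
              mul_le_mul_of_nonneg_right (mul_le_mul_of_nonneg_left h4 (by positivity)) hT2.le
          _ = (16 * C * C0 * c * M.q q1 q2) * (T ^ 2 * M.q q2 Y) := by ring
          _ ≤ (16 * C * C0 * c * M.q q1 q2) * (4 * C0 * M.q p Y) :=
              mul_le_mul_of_nonneg_left h6 (by positivity)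
          _ = _ := by ring
      exact le_of_mul_le_mul_left h9 f0
    calc M.q p q1 * M.q p q2 ≤ M.q p q1 * (c * T ^ 2) := mul_le_mul_of_nonneg_left h2 b0.le
      _ = c * (M.q p q1 * T ^ 2) := by ring
      _ ≤ c * (64 * C * C0 ^ 2 * c * M.q q1 q2) := mul_le_mul_of_nonneg_left h8 (by linarith)
      _ = _ := by ring

/-- the visual length of a piece of the quasigeodesic -/
private theorem MorA_chain {A : ℝ} {L m : ℕ} {w : ℕ → G} (hQ : M.QG A L m w) (hA : 1 ≤ A)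
    {p : G} {T : ℝ} (hT : 1 ≤ T) (hp : ∀ i ≤ m, T ≤ M.q p (w i)) (i : ℕ) :
    ∀ k, i + k ≤ m → del (M.pt p) (M.pt (w i)) (M.pt (w (i + k))) ≤
      (k + 1) * (Real.sqrt (A * 2 ^ L) / T) := by
  have hT0 : 0 < T := by linarith
  have hAL : 1 ≤ A * 2 ^ L := by
    have : (1 : ℝ) ≤ 2 ^ L := one_le_pow₀ one_le_two
    nlinarith
  have hE : 1 ≤ Real.sqrt (A * 2 ^ L) := Real.one_le_sqrt.2 hAL
  have hEp : 0 ≤ Real.sqrt (A * 2 ^ L) / T := by positivity
  have hsq : (Real.sqrt (A * 2 ^ L) / T) ^ 2 = A * 2 ^ L / T ^ 2 := by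
    rw [div_pow, Real.sq_sqrt (by linarith)]
  intro k
  induction k with
  | zero =>
    intro hk
    rw [add_zero] at hk ⊢
    rw [Nat.cast_zero, zero_add, one_mul]
    have h1 := hp i hk
    refine MorA_del hEp (mul_pos (M.MorA_pos p (w i)) (M.MorA_pos p (w i))) ?_
    change M.q (w i) (w i) ≤ _ * (M.q p (w i) * M.q p (w i))
    rw [M.q_self, hsq, div_mul_eq_mul_div, le_div_iff₀ (by positivity), one_mul]
    nlinarith
  | succ k ih =>
    intro hk
    have h1 := ih (by omega)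
    have h2 := (hQ (i + k) (i + (k + 1)) (by omega) hk).1
    have h3 : i + (k + 1) - (i + k) = 1 := by omega
    rw [h3, mul_one] at h2
    have h4 := hp (i + k) (by omega)
    have h5 := hp (i + (k + 1)) hk
    have h6 : del (M.pt p) (M.pt (w (i + k))) (M.pt (w (i + (k + 1)))) ≤
        Real.sqrt (A * 2 ^ L) / T := by
      refine MorA_del hEp (mul_pos (M.MorA_pos p (w (i + k))) (M.MorA_pos p (w (i + (k + 1))))) ?_
      change M.q (w (i + k)) (w (i + (k + 1))) ≤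
        _ * (M.q p (w (i + k)) * M.q p (w (i + (k + 1))))
      rw [hsq, div_mul_eq_mul_div, le_div_iff₀ (by positivity)]
      have h7 : T ^ 2 ≤ M.q p (w (i + k)) * M.q p (w (i + (k + 1))) := by nlinarith
      calc M.q (w (i + k)) (w (i + (k + 1))) * T ^ 2 ≤ (A * 2 ^ L) * T ^ 2 :=
            mul_le_mul_of_nonneg_right h2 (by positivity)
        _ ≤ _ := mul_le_mul_of_nonneg_left h7 (by positivity)
    have h8 := del_tri (M.pt_hyp p) (M.pt_cone (w i)) (M.pt_cone (w (i + (k + 1))))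
      (M.pt_cone (w (i + k)))
    push_cast
    linarith

theorem morA (A : ℝ) (L : ℕ) (C : ℝ) : ∃ M0 : ℝ, ∀ (m : ℕ) (w : ℕ → G), M.QG A L m w →
    ∀ p : G, Bt C (M.pt (w 0)) (M.pt p) (M.pt (w m)) → ∃ i ≤ m, M.q p (w i) ≤ M0 := by
  obtain ⟨C0, hC0, hcg⟩ := M.cg
  -- enlarge the constant
  obtain ⟨C1, hC1, hC1'⟩ : ∃ C1 : ℝ, C0 ^ 2 ≤ C1 ∧ C ≤ C1 :=
    ⟨max (C0 ^ 2) C, le_max_left _ _, le_max_right _ _⟩
  have hC11 : 1 ≤ C1 := le_trans (by nlinarith) hC1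
  set c : ℝ := 16 * C1 * C0 with hc
  have hc1 : 1 ≤ c := by nlinarith
  set CB : ℝ := 64 * C1 * C0 ^ 2 * c ^ 2 with hCB
  have hCB0 : 0 < CB := by positivity
  set E : ℝ := Real.sqrt (A * 2 ^ L) with hE
  obtain ⟨M1, hM1⟩ := MorA_bound (Real.sqrt CB * (8 * Real.sqrt C0 + E)) (Real.sqrt CB * E)
    (A * (64 * c ^ 2) ^ L) (6 * L)
  refine ⟨max C1 M1, fun m w hQ p' hp' => ?_⟩
  have hA : 1 ≤ A := by
    have := (hQ 0 0 le_rfl (Nat.zero_le m)).1
    rw [M.q_self] at this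
    simpa using this
  -- the distance to the sequence
  have hDex : ∀ x : G, ∃ i ≤ m, ∀ j ≤ m, M.q x (w i) ≤ M.q x (w j) := by
    intro x
    obtain ⟨i, hi, hi2⟩ := Finset.exists_min_image (Finset.range (m + 1)) (fun i => M.q x (w i))
      ⟨0, Finset.mem_range.2 (Nat.succ_pos m)⟩
    refine ⟨i, Nat.lt_succ_iff.1 (Finset.mem_range.1 hi), fun j hj => ?_⟩
    exact hi2 j (Finset.mem_range.2 (Nat.lt_succ_iff.2 hj))
  choose idx hidx hmin using hDex
  -- the set of the points between the ends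
  have hfin : {x : G | Bt C1 (M.pt (w 0)) (M.pt x) (M.pt (w m))}.Finite := by
    refine (M.ball_finite (w 0) (C1 * M.q (w 0) (w m))).subset ?_
    intro x hx
    have h1 : M.q (w 0) x * M.q x (w m) ≤ C1 * M.q (w 0) (w m) := hx
    have h2 := M.one_le_q x (w m)
    have h3 := M.one_le_q (w 0) x
    change M.q (w 0) x ≤ C1 * M.q (w 0) (w m)
    nlinarith
  have hp'' : Bt C1 (M.pt (w 0)) (M.pt p') (M.pt (w m)) :=
    Bt_mono hC1' (M.pt_cone _) (M.pt_cone _) hp'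
  obtain ⟨p, hp, hmax⟩ := Set.exists_max_image _ (fun x => M.q x (w (idx x))) hfin ⟨p', hp''⟩
  refine ⟨idx p', hidx p', (hmax p' hp'').trans ?_⟩
  obtain ⟨T, hT⟩ : ∃ T : ℝ, T = M.q p (w (idx p)) := ⟨_, rfl⟩
  have hTmin : ∀ i ≤ m, T ≤ M.q p (w i) := fun i hi => hT ▸ hmin p i hi
  have hmax' : ∀ x : G, Bt C1 (M.pt (w 0)) (M.pt x) (M.pt (w m)) → M.q x (w (idx x)) ≤ T :=
    fun x hx => hT ▸ hmax x hx
  change M.q p (w (idx p)) ≤ max C1 M1
  rw [← hT]
  have hT1 : 1 ≤ T := hT ▸ M.one_le_q p (w (idx p))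
  have hT0 : 0 < T := by linarith
  by_cases hTC : T ≤ C1
  · exact hTC.trans (le_max_left _ _)
  push Not at hTC
  refine le_trans ?_ (le_max_right C1 M1)
  obtain ⟨q1, hb1, hd1, ho1⟩ := M.MorA_left hC0 hC1 hTC.le hcg hp
  obtain ⟨q2, hb2, hd2, ho2⟩ := M.MorA_right hC0 hC1 hTC.le hcg hp
  have hbt := M.MorA_btw hC0 hC11 hc1 hT1 hp hd1 hd2 ho1 ho2
  have hq1 := M.one_le_q p q1
  have hq2 := M.one_le_q p q2
  -- the near points of the sequence
  have near : ∀ z : G, Bt C1 (M.pt (w 0)) (M.pt z) (M.pt (w m)) →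
      (z = w 0 ∨ z = w m ∨ T ^ 2 ≤ 16 * C0 * M.q p z) →
      ∃ i ≤ m, M.q z (w i) ≤ T ∧ del (M.pt p) (M.pt z) (M.pt (w i)) ≤ 4 * Real.sqrt C0 / T := by
    intro z hz ho
    have hnn : 0 ≤ 4 * Real.sqrt C0 / T := by positivity
    have hsq : (4 * Real.sqrt C0 / T) ^ 2 = 16 * C0 / T ^ 2 := by
      rw [div_pow, mul_pow, Real.sq_sqrt (by linarith)]
      norm_num
    have hz0 := M.MorA_pos p z
    have same : ∀ i ≤ m, z = w i → M.q z (w i) ≤ T ∧
        del (M.pt p) (M.pt z) (M.pt (w i)) ≤ 4 * Real.sqrt C0 / T := by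
      intro i hi hzi
      have h1 := hTmin i hi
      subst hzi
      refine ⟨by rw [M.q_self]; exact hT1, MorA_del hnn (mul_pos hz0 hz0) ?_⟩
      change M.q (w i) (w i) ≤ _ * (M.q p (w i) * M.q p (w i))
      rw [M.q_self, hsq, div_mul_eq_mul_div, le_div_iff₀ (by positivity), one_mul]
      have h2 : T ^ 2 ≤ M.q p (w i) * M.q p (w i) := by nlinarith
      nlinarith
    rcases ho with ho | ho | ho
    · exact ⟨0, Nat.zero_le m, same 0 (Nat.zero_le m) ho⟩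
    · exact ⟨m, le_rfl, same m le_rfl ho⟩
    · have h1 := hmax' z hz
      have h2 := hTmin (idx z) (hidx z)
      refine ⟨idx z, hidx z, h1, MorA_del hnn (mul_pos hz0 (M.MorA_pos p (w (idx z)))) ?_⟩
      change M.q z (w (idx z)) ≤ _ * (M.q p z * M.q p (w (idx z)))
      rw [hsq, div_mul_eq_mul_div, le_div_iff₀ (by positivity)]
      calc M.q z (w (idx z)) * T ^ 2 ≤ T * (16 * C0 * M.q p z) :=
            mul_le_mul h1 ho (by positivity) hT0.le
        _ ≤ M.q p (w (idx z)) * (16 * C0 * M.q p z) :=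
            mul_le_mul_of_nonneg_right h2 (by positivity)
        _ = _ := by ring
  obtain ⟨i1, hi1, hn1, hl1⟩ := near q1 hb1 (by
    rcases ho1 with h | h
    · exact Or.inl h
    · refine Or.inr (Or.inr ?_)
      have : 4 * C0 * M.q p q1 ≤ 16 * C0 * M.q p q1 := by nlinarith
      exact h.2.trans this)
  obtain ⟨i2, hi2, hn2, hl2⟩ := near q2 hb2 (by
    rcases ho2 with h | h
    · exact Or.inr (Or.inl h)
    · exact Or.inr (Or.inr h.2))
  -- the distance of the near points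
  have hdist : M.q (w i1) (w i2) ≤ 64 * c ^ 2 * T ^ 6 := by
    have t1 := M.q_tri (w i1) q1 (w i2)
    have t2 := M.q_tri q1 p (w i2)
    have t3 := M.q_tri p q2 (w i2)
    rw [M.q_symm (w i1) q1] at t1
    rw [M.q_symm q1 p] at t2
    have a1 := M.MorA_pos q1 (w i1)
    have a2 := M.MorA_pos q1 (w i2)
    have a3 := M.MorA_pos p (w i2)
    have a4 := M.MorA_pos q2 (w i2)
    have s3 : M.q p (w i2) ≤ 4 * (c * T ^ 2 * T) :=
      t3.trans (mul_le_mul_of_nonneg_left (mul_le_mul hd2 hn2 a4.le (by positivity)) (by norm_num))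
    have s2 : M.q q1 (w i2) ≤ 4 * (c * T ^ 2 * (4 * (c * T ^ 2 * T))) :=
      t2.trans (mul_le_mul_of_nonneg_left (mul_le_mul hd1 s3 a3.le (by positivity)) (by norm_num))
    have s1 : M.q (w i1) (w i2) ≤ 4 * (T * (4 * (c * T ^ 2 * (4 * (c * T ^ 2 * T))))) :=
      t1.trans (mul_le_mul_of_nonneg_left (mul_le_mul hn1 s2 a2.le hT0.le) (by norm_num))
    refine s1.trans (le_of_eq ?_)
    ring
  have key : ∃ n : ℕ, (2 : ℝ) ^ n ≤ A * (64 * c ^ 2 * T ^ 6) ^ L ∧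
      del (M.pt p) (M.pt (w i1)) (M.pt (w i2)) ≤ (n + 1) * (E / T) := by
    rcases le_total i1 i2 with hle | hle
    · refine ⟨i2 - i1, ?_, ?_⟩
      · refine (hQ i1 i2 hle hi2).2.trans (mul_le_mul_of_nonneg_left ?_ (by linarith))
        exact pow_le_pow_left₀ (M.MorA_pos _ _).le hdist L
      · have h1 := M.MorA_chain hQ hA hT1 hTmin i1 (i2 - i1) (by omega)
        rw [Nat.add_sub_cancel' hle] at h1
        exact h1
    · refine ⟨i1 - i2, ?_, ?_⟩
      · refine (hQ i2 i1 hle hi1).2.trans (mul_le_mul_of_nonneg_left ?_ (by linarith))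
        rw [M.q_symm]
        exact pow_le_pow_left₀ (M.MorA_pos _ _).le hdist L
      · have h1 := M.MorA_chain hQ hA hT1 hTmin i2 (i1 - i2) (by omega)
        rw [Nat.add_sub_cancel' hle] at h1
        rw [del_symm]
        exact h1
  obtain ⟨n, hn, hdn⟩ := key
  refine hM1 T n hT0.le ?_ ?_
  · refine hn.trans (le_of_eq ?_)
    rw [mul_pow (64 * c ^ 2) (T ^ 6) L, ← pow_mul, mul_assoc]
  · have g1 : 1 ≤ Real.sqrt CB * del (M.pt p) (M.pt q1) (M.pt q2) :=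
      MorA_del_ge hCB0 (mul_pos (M.MorA_pos p q1) (M.MorA_pos p q2)) hbt
    have g2 := del_tri (M.pt_hyp p) (M.pt_cone q1) (M.pt_cone q2) (M.pt_cone (w i1))
    have g3 := del_tri (M.pt_hyp p) (M.pt_cone (w i1)) (M.pt_cone q2) (M.pt_cone (w i2))
    rw [del_symm (M.pt p) (M.pt (w i2)) (M.pt q2)] at g3
    have g4 : del (M.pt p) (M.pt q1) (M.pt q2) ≤
        (8 * Real.sqrt C0 + (n + 1) * E) / T := by
      have g5 : (8 * Real.sqrt C0 + (n + 1) * E) / T =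
          4 * Real.sqrt C0 / T + (4 * Real.sqrt C0 / T + (n + 1) * (E / T)) := by ring
      rw [g5]
      linarith
    have g6 : 1 ≤ Real.sqrt CB * ((8 * Real.sqrt C0 + (n + 1) * E) / T) :=
      g1.trans (mul_le_mul_of_nonneg_left g4 (Real.sqrt_nonneg _))
    rw [mul_div_assoc', le_div_iff₀ hT0, one_mul] at g6
    refine g6.trans (le_of_eq ?_)
    ring

end Model

end Pool.Agent.Work.MP_d3656f_al
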