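import Mathlib
import Pool.Agent.Work.MP_d3656f_al.H.MorA

/-!
# H/MorB : stability of quasigeodesics, second half

`morB`: for all `A L` there is `C'` such that for every `QG A L m w` and `i ≤ m` one has
`Bt C' (w 0) (w i) (w m)`.

Proof. `X = w 0`, `Y = w m`, `C0` from `cg`. For `k ≥ 0` with `2^k ≤ q X Y` let `g k` be given by
`cg X Y (2^k)`, `g 0 = X` and let `g (K+1) = Y` where `2^K ≤ q X Y < 2^(K+1)`. All `g k` satisfy
`Bt (C0^2) X (g k) Y` (also `X` and `Y`), and consecutive ones satisfy `q (g k) (g (k+1)) ≤ c1` by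
`ratio`. By `morA` for each `k` there is `i(k) ≤ m` with `q (g k) (w (i k)) ≤ M0`; choose
`i(0) = 0`, `i(K+1) = m` (`q` of a point with itself is `1 ≤ M0` after enlarging `M0`). Then
`q (w (i k)) (w (i (k+1))) ≤ 16 M0^2 c1` by `q_tri`, so `|i k - i (k+1)| ≤ c2` (from
`2^|i-j| ≤ A q^L`). As `i(0) = 0`, `i(K+1) = m`, every `i ≤ m` has some `k` with
`|i - i(k)| ≤ c2` (discrete intermediate value: let `k` be the last index with `i(k) ≤ i`).
Then `q (w i) (g k) ≤ 4 A 2^(L c2) M0 =: c3` and by `q_tri`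
`q X (w i) * q (w i) Y ≤ 16 c3^2 q X (g k) q (g k) Y ≤ 16 c3^2 C0^2 q X Y`.
-/

set_option autoImplicit false

namespace Pool.Agent.Work.MP_d3656f_al

namespace Model

variable {G : Type} [Group G] (M : Model G)

theorem morB (A : ℝ) (L : ℕ) : ∃ C' : ℝ, ∀ (m : ℕ) (w : ℕ → G), M.QG A L m w →
    ∀ i ≤ m, Bt C' (M.pt (w 0)) (M.pt (w i)) (M.pt (w m)) := by
  obtain ⟨C0, hC0, hcg⟩ := M.cg
  obtain ⟨M0, hM0⟩ := M.morA A L (C0 ^ 2)
  set M1 : ℝ := max M0 1 with hM1
  have hM11 : 1 ≤ M1 := le_max_right _ _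
  set c1 : ℝ := 32 * C0 ^ 4 with hc1
  set c2 : ℝ := A * (16 * M1 ^ 2 * c1) ^ L with hc2
  set c3 : ℝ := 4 * (A * c2 ^ L) * M1 with hc3
  refine ⟨16 * c3 ^ 2 * C0 ^ 2, fun m w hw i hi => ?_⟩
  have hpos : ∀ u v : G, 0 < M.q u v := fun u v => lt_of_lt_of_le one_pos (M.one_le_q u v)
  have hA : 1 ≤ A := by
    have h1 := (hw 0 0 le_rfl (Nat.zero_le m)).2
    rw [Nat.sub_self, pow_zero, M.q_self, one_pow, mul_one] at h1
    exact h1
  set X : G := w 0 with hX
  set Y : G := w m with hY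
  have hXY : 1 ≤ M.q X Y := M.one_le_q X Y
  have hC2 : 1 ≤ C0 ^ 2 := one_le_pow₀ hC0
  -- the number of steps
  obtain ⟨K, hK1, hK2⟩ : ∃ K : ℕ, (2 : ℝ) ^ K ≤ M.q X Y ∧ M.q X Y < 2 ^ (K + 1) :=
    exists_nat_pow_near hXY one_lt_two
  -- the chain
  have hch : ∀ k : ℕ, k ≤ K + 1 → ∃ (g : G) (n : ℕ), Bt (C0 ^ 2) (M.pt X) (M.pt g) (M.pt Y) ∧
      M.q X g ≤ C0 * 2 ^ k ∧ 2 ^ k ≤ 4 * C0 * M.q X g ∧ n ≤ m ∧ M.q g (w n) ≤ M1 ∧
      (k = 0 → n = 0) ∧ (k = K + 1 → n = m) := by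
    intro k hk
    rcases Nat.eq_zero_or_pos k with hk0 | hk0
    · subst hk0
      refine ⟨X, 0, ?_, ?_, ?_, Nat.zero_le m, ?_, fun _ => rfl, fun h => absurd h (by omega)⟩
      · change M.q X X * M.q X Y ≤ C0 ^ 2 * M.q X Y
        rw [M.q_self]
        nlinarith
      · rw [M.q_self, pow_zero]
        linarith
      · rw [M.q_self, pow_zero]
        linarith
      · rw [← hX, M.q_self]
        exact hM11
    · by_cases hkK : k = K + 1
      · subst hkK
        refine ⟨Y, m, ?_, ?_, ?_, le_rfl, ?_, fun h => absurd h (by omega), fun _ => rfl⟩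
        · change M.q X Y * M.q Y Y ≤ C0 ^ 2 * M.q X Y
          rw [M.q_self]
          nlinarith
        · have h2 : (0 : ℝ) < 2 ^ (K + 1) := by positivity
          nlinarith
        · rw [pow_succ]
          nlinarith
        · rw [← hY, M.q_self]
          exact hM11
      · have hkK' : k ≤ K := by omega
        have h1 : (1 : ℝ) ≤ 2 ^ k := one_le_pow₀ one_le_two
        have h2 : (2 : ℝ) ^ k ≤ Q (M.pt X) (M.pt Y) :=
          (pow_le_pow_right₀ one_le_two hkK').trans hK1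
        obtain ⟨g, g1, g2, -, g4⟩ := hcg X (M.pt Y) _ h1 (Or.inr ⟨M.pt_hyp Y, h2⟩)
        obtain ⟨n, hn, hn2⟩ := hM0 m w hw g g4
        exact ⟨g, n, g4, g1, g2, hn, hn2.trans (le_max_left _ _), fun h => absurd h (by omega),
          fun h => absurd h hkK⟩
  choose g n hbt hg1 hg2 hnm hgn hn0 hnK using hch
  -- discrete intermediate values
  obtain ⟨k, hk, hk1, hk2⟩ : ∃ (k : ℕ) (hk : k + 1 ≤ K + 1), n k (by omega) ≤ i ∧ i ≤ n (k + 1) hk := by
    by_contra hcon
    push Not at hcon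
    have h1 : ∀ k : ℕ, ∀ hk : k ≤ K + 1, n k hk ≤ i := by
      intro k
      induction k with
      | zero =>
        intro hk
        rw [hn0 0 hk rfl]
        exact Nat.zero_le i
      | succ k ih =>
        intro hk
        exact (hcon k hk (ih (by omega))).le
    have h2 := h1 K (by omega)
    have h3 := hcon K le_rfl h2
    rw [hnK (K + 1) le_rfl rfl] at h3
    omega
  have hk' : k ≤ K + 1 := by omega
  set a : G := g k hk' with ha
  set b : G := g (k + 1) hk with hb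
  set na : ℕ := n k hk' with hna
  set nb : ℕ := n (k + 1) hk with hnb
  have e1 := hg1 k hk'
  have e2 := hg2 k hk'
  have e3 := hg1 (k + 1) hk
  have e4 := hg2 (k + 1) hk
  rw [← ha] at e1 e2
  rw [← hb, pow_succ] at e3 e4
  have hab : M.q a b ≤ c1 := by
    have hr := ratio (r := 8 * C0 ^ 2) (M.pt_hyp X) (M.pt_hyp a) (M.pt_hyp b) (M.pt_cone Y)
      (hbt k hk') (hbt (k + 1) hk) (by
        change M.q X a ≤ 8 * C0 ^ 2 * M.q X b
        have h5 := hpos X b
        have h6 : M.q X a ≤ C0 * (2 * C0 * M.q X b) := by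
          refine e1.trans (mul_le_mul_of_nonneg_left ?_ (by linarith))
          linarith
        nlinarith [mul_pos (by linarith : (0 : ℝ) < C0) (by linarith : (0 : ℝ) < C0)]) (by
        change M.q X b ≤ 8 * C0 ^ 2 * M.q X a
        have h5 := hpos X a
        have h6 : M.q X b ≤ C0 * ((4 * C0 * M.q X a) * 2) := by
          refine e3.trans (mul_le_mul_of_nonneg_left ?_ (by linarith))
          linarith
        nlinarith)
    have h7 : 4 * C0 ^ 2 * (8 * C0 ^ 2) = c1 := by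
      rw [hc1]
      ring
    rw [← h7]
    exact hr
  have hc11 : 1 ≤ c1 := by
    have : 1 ≤ C0 ^ 4 := one_le_pow₀ hC0
    rw [hc1]
    linarith
  have hqa : M.q a (w na) ≤ M1 := hgn k hk'
  have hqb : M.q b (w nb) ≤ M1 := hgn (k + 1) hk
  have hqab : M.q (w na) (w nb) ≤ 16 * M1 ^ 2 * c1 := by
    have h1 := M.q_tri (w na) a (w nb)
    have h2 := M.q_tri a b (w nb)
    have h3 : M.q (w na) a ≤ M1 := by
      rw [M.q_symm]
      exact hqa
    have h4 : M.q a b * M.q b (w nb) ≤ c1 * M1 :=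
      mul_le_mul hab hqb (hpos _ _).le (by linarith)
    have h5 : M.q (w na) a * M.q a (w nb) ≤ M1 * (4 * (c1 * M1)) :=
      mul_le_mul h3 (h2.trans (by linarith)) (hpos _ _).le (by linarith)
    calc M.q (w na) (w nb) ≤ 4 * (M.q (w na) a * M.q a (w nb)) := h1
      _ ≤ 4 * (M1 * (4 * (c1 * M1))) := by linarith
      _ = 16 * M1 ^ 2 * c1 := by ring
  have hnbm : nb ≤ m := hnm (k + 1) hk
  have hlen : (2 : ℝ) ^ (i - na) ≤ c2 := by
    have h1 := (hw na nb (hk1.trans hk2) hnbm).2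
    calc (2 : ℝ) ^ (i - na) ≤ 2 ^ (nb - na) := pow_le_pow_right₀ one_le_two (by omega)
      _ ≤ A * (M.q (w na) (w nb)) ^ L := h1
      _ ≤ c2 := by
        rw [hc2]
        refine mul_le_mul_of_nonneg_left ?_ (by linarith)
        exact pow_le_pow_left₀ (hpos _ _).le hqab L
  have hqi : M.q (w na) (w i) ≤ A * c2 ^ L := by
    have h1 := (hw na i hk1 hi).1
    refine h1.trans (mul_le_mul_of_nonneg_left ?_ (by linarith))
    rw [mul_comm L, pow_mul]
    exact pow_le_pow_left₀ (by positivity) hlen L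
  have hai : M.q a (w i) ≤ c3 := by
    have h1 := M.q_tri a (w na) (w i)
    have h2 : M.q a (w na) * M.q (w na) (w i) ≤ M1 * (A * c2 ^ L) :=
      mul_le_mul hqa hqi (hpos _ _).le (by linarith)
    rw [hc3]
    linarith
  have hc30 : 0 < c3 := lt_of_lt_of_le (hpos a (w i)) hai
  have hbta : M.q X a * M.q a Y ≤ C0 ^ 2 * M.q X Y := hbt k hk'
  change M.q X (w i) * M.q (w i) Y ≤ 16 * c3 ^ 2 * C0 ^ 2 * M.q X Y
  have h1 : M.q X (w i) ≤ 4 * (M.q X a * c3) := by
    refine (M.q_tri X a (w i)).trans ?_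
    have := mul_le_mul_of_nonneg_left hai (hpos X a).le
    linarith
  have h2 : M.q (w i) Y ≤ 4 * (c3 * M.q a Y) := by
    refine (M.q_tri (w i) a Y).trans ?_
    rw [M.q_symm (w i) a]
    have := mul_le_mul_of_nonneg_right hai (hpos a Y).le
    linarith
  have hXa := hpos X a
  have haY := hpos a Y
  calc M.q X (w i) * M.q (w i) Y ≤ (4 * (M.q X a * c3)) * (4 * (c3 * M.q a Y)) :=
        mul_le_mul h1 h2 (hpos _ _).le (by positivity)
    _ = 16 * c3 ^ 2 * (M.q X a * M.q a Y) := by ring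
    _ ≤ 16 * c3 ^ 2 * (C0 ^ 2 * M.q X Y) := mul_le_mul_of_nonneg_left hbta (by positivity)
    _ = 16 * c3 ^ 2 * C0 ^ 2 * M.q X Y := by ring

end Model

end Pool.Agent.Work.MP_d3656f_al
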