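import Mathlib
import Pool.Agent.Work.MP_d3656f_al.M.CG

/-!
# H/QI : automorphisms are power quasi-isometries for `q`

`chain`: there are `K ≥ 1` and `c : ℕ` such that for all `x y : G` there are `n : ℕ` and
`z : ℕ → G` with `z 0 = x`, `z n = y`, `q (z i) (z (i+1)) ≤ K` for `i < n` and
`2 ^ n ≤ K * q x y`.
Proof. Let `Q = q x y`, `m` with `2^m ≤ Q < 2^(m+1)`. For `i ≤ m` let `z i` be given by `cg` with
`s = 2^i` (and `z 0 = x`), and `z (m+1) = y`; `n = m + 1`. By `cg` all are in `Bt (C0^2) x · y`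
(also `x` and `y`) with levels `q x (z i)` comparable to `2^i` (for `y`: to `2^(m+1)`), so `ratio`
bounds `q (z i) (z (i+1))`.

`qi`: let `Φ : MulAut G`. By `ball_finite` there is `B ≥ 1` with `q 1 (Φ g) ≤ B` for all `g` with
`q 1 g ≤ K`. For `x, y` take the chain; `q (Φ (z i)) (Φ (z (i+1))) = q 1 (Φ ((z i)⁻¹ z (i+1))) ≤ B`
and `q_tri` gives `q (Φ x) (Φ y) ≤ (4 B)^n`. With `4 B ≤ 2^L` this is
`≤ (2^n)^L ≤ (K q x y)^L`.
-/

set_option autoImplicit false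

namespace Pool.Agent.Work.MP_d3656f_al

namespace Model

variable {G : Type} [Group G] (M : Model G)

theorem chain : ∃ K : ℝ, 1 ≤ K ∧ ∀ x y : G, ∃ (n : ℕ) (z : ℕ → G), z 0 = x ∧ z n = y ∧
    (∀ i < n, M.q (z i) (z (i + 1)) ≤ K) ∧ (2 : ℝ) ^ n ≤ K * M.q x y := by
  obtain ⟨C0, hC0, hcg⟩ := M.cg
  have hC2 : 1 ≤ C0 ^ 2 := one_le_pow₀ hC0
  have hC4 : 1 ≤ C0 ^ 4 := one_le_pow₀ hC0
  refine ⟨128 * C0 ^ 4, by linarith, fun x y => ?_⟩
  have hQ1 : 1 ≤ M.q x y := M.one_le_q x y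
  obtain ⟨m, hm1, hm2⟩ := exists_nat_pow_near hQ1 (one_lt_two : (1 : ℝ) < 2)
  have hex : ∀ i : ℕ, ∃ z : G, (i ≤ m + 1 → Bt (C0 ^ 2) (M.pt x) (M.pt z) (M.pt y) ∧
      M.q x z ≤ 4 * C0 * 2 ^ i ∧ (2 : ℝ) ^ i ≤ 4 * C0 * M.q x z) ∧ (i = 0 → z = x) ∧
      (i = m + 1 → z = y) := by
    intro i
    by_cases h0 : i = 0
    · refine ⟨x, fun _ => ⟨?_, ?_, ?_⟩, fun _ => rfl, fun h => by omega⟩
      · show M.q x x * M.q x y ≤ C0 ^ 2 * M.q x y
        rw [M.q_self, one_mul]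
        nlinarith
      · rw [M.q_self, h0, pow_zero]
        linarith
      · rw [M.q_self, h0, pow_zero]
        linarith
    · by_cases h1 : i = m + 1
      · refine ⟨y, fun _ => ⟨?_, ?_, ?_⟩, fun h => absurd h h0, fun _ => rfl⟩
        · show M.q x y * M.q y y ≤ C0 ^ 2 * M.q x y
          rw [M.q_self, mul_one]
          nlinarith
        · rw [h1]
          have h2 : (0 : ℝ) < 2 ^ (m + 1) := by positivity
          nlinarith
        · rw [h1, pow_succ]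
          nlinarith
      · by_cases h2 : i ≤ m
        · have hs1 : (1 : ℝ) ≤ 2 ^ i := one_le_pow₀ one_le_two
          have hs2 : (2 : ℝ) ^ i ≤ Q (M.pt x) (M.pt y) :=
            (pow_le_pow_right₀ one_le_two h2).trans hm1
          obtain ⟨z, z1, z2, -, z4⟩ := hcg x (M.pt y) (2 ^ i) hs1 (Or.inr ⟨M.pt_hyp y, hs2⟩)
          refine ⟨z, fun _ => ⟨z4, ?_, z2⟩, fun h => absurd h h0, fun h => absurd h h1⟩
          nlinarith
        · exact ⟨x, fun h => by omega, fun h => absurd h h0, fun h => absurd h h1⟩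
  choose z hz1 hz2 hz3 using hex
  refine ⟨m + 1, z, hz2 0 rfl, hz3 (m + 1) rfl, ?_, ?_⟩
  · intro i hi
    obtain ⟨a1, a2, a3⟩ := hz1 i (by omega)
    obtain ⟨b1, b2, b3⟩ := hz1 (i + 1) (by omega)
    rw [pow_succ] at b2 b3
    have hp : (0 : ℝ) < 2 ^ i := by positivity
    have hr : M.q (z i) (z (i + 1)) ≤ 4 * C0 ^ 2 * (32 * C0 ^ 2) := by
      refine ratio (M.pt_hyp x) (M.pt_hyp (z i)) (M.pt_hyp (z (i + 1))) (M.pt_cone y) a1 b1 ?_ ?_
      · show M.q x (z i) ≤ 32 * C0 ^ 2 * M.q x (z (i + 1))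
        have h1 : 4 * C0 * 2 ^ i * 2 ≤ 4 * C0 * (4 * C0 * M.q x (z (i + 1))) := by nlinarith
        have h2 : (0 : ℝ) ≤ C0 ^ 2 * M.q x (z (i + 1)) := by
          have := M.one_le_q x (z (i + 1))
          positivity
        nlinarith
      · show M.q x (z (i + 1)) ≤ 32 * C0 ^ 2 * M.q x (z i)
        have h1 : 4 * C0 * (2 ^ i * 2) ≤ 4 * C0 * (4 * C0 * M.q x (z i) * 2) := by nlinarith
        nlinarith
    refine hr.trans (le_of_eq ?_)
    ring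
  · rw [pow_succ]
    nlinarith

theorem qi (Φ : MulAut G) : ∃ A : ℝ, 1 ≤ A ∧ ∃ L : ℕ, 1 ≤ L ∧
    ∀ x y : G, M.q (Φ x) (Φ y) ≤ A * (M.q x y) ^ L := by
  obtain ⟨K, hK1, hK⟩ := M.chain
  obtain ⟨B, hB1, hB⟩ : ∃ B : ℝ, 1 ≤ B ∧ ∀ g : G, M.q 1 g ≤ K → M.q 1 (Φ g) ≤ B := by
    obtain ⟨B, hB⟩ := ((M.ball_finite 1 K).image fun g => M.q 1 (Φ g)).bddAbove
    refine ⟨max B 1, le_max_right _ _, fun g hg => (hB ?_).trans (le_max_left _ _)⟩
    exact ⟨g, hg, rfl⟩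
  obtain ⟨L, hL⟩ := pow_unbounded_of_one_lt (4 * B) (one_lt_two : (1 : ℝ) < 2)
  refine ⟨K ^ (L + 1), one_le_pow₀ hK1, L + 1, by omega, fun x y => ?_⟩
  obtain ⟨n, z, hz0, hzn, hz, hn⟩ := hK x y
  have h1 : ∀ u v : G, M.q u v = M.q 1 (u⁻¹ * v) := by
    intro u v
    rw [← M.q_left u⁻¹ u v, inv_mul_cancel]
  have h2 : ∀ i < n, M.q (Φ (z i)) (Φ (z (i + 1))) ≤ B := by
    intro i hi
    rw [h1, ← map_inv, ← map_mul]
    refine hB _ ?_
    rw [← h1]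
    exact hz i hi
  have h3 : ∀ j ≤ n, M.q (Φ (z 0)) (Φ (z j)) ≤ (4 * B) ^ j := by
    intro j
    induction j with
    | zero =>
      intro _
      rw [M.q_self, pow_zero]
    | succ j ih =>
      intro hj
      refine (M.q_tri _ (Φ (z j)) _).trans ?_
      have h4 := ih (by omega)
      have h5 := h2 j (by omega)
      have h6 : M.q (Φ (z 0)) (Φ (z j)) * M.q (Φ (z j)) (Φ (z (j + 1))) ≤ (4 * B) ^ j * B :=
        mul_le_mul h4 h5 (zero_le_one.trans (M.one_le_q _ _)) (by positivity)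
      rw [pow_succ]
      linarith
  have h4 := h3 n le_rfl
  rw [hz0, hzn] at h4
  refine h4.trans ?_
  have h5 : (4 * B) ^ n ≤ ((2 : ℝ) ^ (L + 1)) ^ n := by
    refine pow_le_pow_left₀ (by positivity) ?_ n
    refine hL.le.trans ?_
    exact pow_le_pow_right₀ one_le_two (Nat.le_succ L)
  have h6 : ((2 : ℝ) ^ (L + 1)) ^ n = ((2 : ℝ) ^ n) ^ (L + 1) := by
    rw [← pow_mul, ← pow_mul, mul_comm]
  rw [h6] at h5
  refine h5.trans ?_
  rw [← mul_pow]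
  exact pow_le_pow_left₀ (by positivity) hn _

/-- Both directions with the same constants. -/
theorem qi2 (Φ : MulAut G) : ∃ A : ℝ, 1 ≤ A ∧ ∃ L : ℕ, 1 ≤ L ∧
    (∀ x y : G, M.q (Φ x) (Φ y) ≤ A * (M.q x y) ^ L) ∧
    (∀ x y : G, M.q x y ≤ A * (M.q (Φ x) (Φ y)) ^ L) := by
  obtain ⟨A1, hA1, L1, hL1, h1⟩ := M.qi Φ
  obtain ⟨A2, hA2, L2, hL2, h2⟩ := M.qi Φ⁻¹
  refine ⟨max A1 A2, le_max_of_le_left hA1, max L1 L2, le_max_of_le_left hL1, fun x y => ?_,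
    fun x y => ?_⟩
  · refine (h1 x y).trans ?_
    have h3 := M.one_le_q x y
    exact mul_le_mul (le_max_left _ _) (pow_le_pow_right₀ h3 (le_max_left _ _)) (by positivity)
      (by positivity)
  · have h4 := h2 (Φ x) (Φ y)
    rw [MulAut.inv_apply_self, MulAut.inv_apply_self] at h4
    refine h4.trans ?_
    have h3 := M.one_le_q (Φ x) (Φ y)
    exact mul_le_mul (le_max_right _ _) (pow_le_pow_right₀ h3 (le_max_right _ _)) (by positivity)
      (by positivity)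

end Model

end Pool.Agent.Work.MP_d3656f_al
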