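import Mathlib
import Pool.Agent.Work.MP_d3656f_al.H.QI
import Pool.Agent.Work.MP_d3656f_al.H.MorB

/-!
# H/BT : automorphisms preserve betweenness coarsely

`bt`: for `Φ : MulAut G` and every `C` there is `C'` with
`Bt C x z y → Bt C' (Φ x) (Φ z) (Φ y)` for all `x z y : G`.

Proof. Let `x z y` with `Bt C x z y`, `C0` from `cg`, WLOG `C ≥ C0^2`, `C ≥ 1`. Let
`2^m ≤ q x y < 2^(m+1)`; for `k ≤ m` let `g k` be given by `cg x y (2^k)`, `g 0 = x`,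
`g (m+1) = y`. All `g k` are in `Bt (C0^2) x · y` and `q x (g k)` is comparable to `2^k`
(between `2^k / (4 C0)` and `2 C0 2^k`, for `k = m+1` between `2^(m+1)/2` and `2^(m+1)`).
For `i ≤ j`: `q (g i) (g j) ≤ c1 2^(j-i)` by `ratio` and
`2^(j-i) ≤ c1 q (g i) (g j)` by `q x (g j) ≤ 4 q x (g i) q (g i) (g j)`.
By `qi2` the sequence `w k = Φ (g k)` satisfies `QG A' L (m+1)` with `A', L` depending only on
`Φ` (`q (w i) (w j) ≤ A (c1 2^(j-i))^L`, `2^(j-i) ≤ c1 A q (w i) (w j)^L`).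
By `morB`, `Bt C1 (Φ x) (w k) (Φ y)` for all `k ≤ m+1`.
Now `1 ≤ q x z ≤ C q x y`; let `k ≤ m + 1` with `2^k` comparable to `q x z` (within the factor
`4 C`): `ratio` gives `q z (g k) ≤ c2`. So `q (Φ z) (w k) ≤ A c2^L =: c3`, and by `q_tri`
`q (Φ x) (Φ z) q (Φ z) (Φ y) ≤ 16 c3^2 q (Φ x) (w k) q (w k) (Φ y) ≤ 16 c3^2 C1 q (Φ x) (Φ y)`.
-/

set_option autoImplicit false

namespace Pool.Agent.Work.MP_d3656f_al

namespace Model

variable {G : Type} [Group G] (M : Model G)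

private theorem bt_chain : ∃ C0 : ℝ, 1 ≤ C0 ∧ ∀ x y : G, ∃ (m : ℕ) (z : ℕ → G), z 0 = x ∧
    z m = y ∧ M.q x y ≤ 2 ^ m ∧ ∀ i ≤ m, Bt (C0 ^ 2) (M.pt x) (M.pt (z i)) (M.pt y) ∧
      M.q x (z i) ≤ 4 * C0 * 2 ^ i ∧ (2 : ℝ) ^ i ≤ 4 * C0 * M.q x (z i) := by
  obtain ⟨C0, hC0, hcg⟩ := M.cg
  have hC2 : 1 ≤ C0 ^ 2 := one_le_pow₀ hC0
  refine ⟨C0, hC0, fun x y => ?_⟩
  have hQ1 : 1 ≤ M.q x y := M.one_le_q x y
  obtain ⟨m, hm1, hm2⟩ := exists_nat_pow_near hQ1 (one_lt_two : (1 : ℝ) < 2)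
  have hex : ∀ i : ℕ, ∃ z : G, (i ≤ m + 1 → Bt (C0 ^ 2) (M.pt x) (M.pt z) (M.pt y) ∧
      M.q x z ≤ 4 * C0 * 2 ^ i ∧ (2 : ℝ) ^ i ≤ 4 * C0 * M.q x z) ∧ (i = 0 → z = x) ∧
      (i = m + 1 → z = y) := by
    intro i
    by_cases h0 : i = 0
    · refine ⟨x, fun _ => ⟨?_, ?_, ?_⟩, fun _ => rfl, fun h => by omega⟩
      · show M.q x x * M.q x y ≤ C0 ^ 2 * M.q x y
        rw [M.q_self, one_mul]
        nlinarith
      · rw [M.q_self, h0, pow_zero]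
        linarith
      · rw [M.q_self, h0, pow_zero]
        linarith
    · by_cases h1 : i = m + 1
      · refine ⟨y, fun _ => ⟨?_, ?_, ?_⟩, fun h => absurd h h0, fun _ => rfl⟩
        · show M.q x y * M.q y y ≤ C0 ^ 2 * M.q x y
          rw [M.q_self, mul_one]
          nlinarith
        · rw [h1]
          have h2 : (0 : ℝ) < 2 ^ (m + 1) := by positivity
          nlinarith
        · rw [h1, pow_succ]
          nlinarith
      · by_cases h2 : i ≤ m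
        · have hs1 : (1 : ℝ) ≤ 2 ^ i := one_le_pow₀ one_le_two
          have hs2 : (2 : ℝ) ^ i ≤ Q (M.pt x) (M.pt y) :=
            (pow_le_pow_right₀ one_le_two h2).trans hm1
          obtain ⟨z, z1, z2, -, z4⟩ := hcg x (M.pt y) (2 ^ i) hs1 (Or.inr ⟨M.pt_hyp y, hs2⟩)
          refine ⟨z, fun _ => ⟨z4, ?_, z2⟩, fun h => absurd h h0, fun h => absurd h h1⟩
          nlinarith
        · exact ⟨x, fun h => by omega, fun h => absurd h h0, fun h => absurd h h1⟩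
  choose z hz1 hz2 hz3 using hex
  exact ⟨m + 1, z, hz2 0 rfl, hz3 (m + 1) rfl, hm2.le, fun i hi => hz1 i hi⟩

theorem bt (Φ : MulAut G) (C : ℝ) : ∃ C' : ℝ, ∀ x z y : G, Bt C (M.pt x) (M.pt z) (M.pt y) →
    Bt C' (M.pt (Φ x)) (M.pt (Φ z)) (M.pt (Φ y)) := by
  obtain ⟨C0, hC0, hch⟩ := M.bt_chain
  obtain ⟨A, hA, L, hL, hqi1, hqi2⟩ := M.qi2 Φ
  have hC2 : 1 ≤ C0 ^ 2 := one_le_pow₀ hC0
  have hC4 : 1 ≤ C0 ^ 4 := one_le_pow₀ hC0
  have hC24 : C0 ^ 2 ≤ C0 ^ 4 := pow_le_pow_right₀ hC0 (by norm_num)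
  obtain ⟨CB, hCB⟩ := M.morB (A * (64 * C0 ^ 4) ^ L) L
  obtain ⟨C1, hC1a, hC1b⟩ : ∃ C1 : ℝ, C ≤ C1 ∧ C0 ^ 2 ≤ C1 :=
    ⟨max C (C0 ^ 2), le_max_left _ _, le_max_right _ _⟩
  have hC1 : 1 ≤ C1 := hC2.trans hC1b
  refine ⟨16 * (A * (4 * C1 * (8 * C1 * C0)) ^ L) ^ 2 * CB, fun x z y hz => ?_⟩
  have hz' : Bt C1 (M.pt x) (M.pt z) (M.pt y) := Bt_mono hC1a (M.pt_cone x) (M.pt_cone y) hz
  obtain ⟨m, g, hg0, hgm, hxy, hg⟩ := hch x y
  have hQG : M.QG (A * (64 * C0 ^ 4) ^ L) L m (fun k => Φ (g k)) := by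
    intro i j hij hj
    obtain ⟨a1, a2, a3⟩ := hg i (hij.trans hj)
    obtain ⟨b1, b2, b3⟩ := hg j hj
    have hpi : (0 : ℝ) < 2 ^ i := by positivity
    have hpd1 : (1 : ℝ) ≤ 2 ^ (j - i) := one_le_pow₀ one_le_two
    have hpj : (2 : ℝ) ^ j = 2 ^ i * 2 ^ (j - i) := by
      rw [← pow_add, Nat.add_sub_cancel' hij]
    have hqxi := M.one_le_q x (g i)
    have hqxj := M.one_le_q x (g j)
    have hqij := M.one_le_q (g i) (g j)
    have h1 : M.q (g i) (g j) ≤ 4 * C0 ^ 2 * (16 * C0 ^ 2 * 2 ^ (j - i)) := by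
      refine ratio (M.pt_hyp x) (M.pt_hyp (g i)) (M.pt_hyp (g j)) (M.pt_cone y) a1 b1 ?_ ?_
      · show M.q x (g i) ≤ 16 * C0 ^ 2 * 2 ^ (j - i) * M.q x (g j)
        have h2 : 4 * C0 * 2 ^ i ≤ 4 * C0 * 2 ^ j :=
          mul_le_mul_of_nonneg_left (pow_le_pow_right₀ one_le_two hij) (by linarith)
        have h3 : 4 * C0 * 2 ^ j ≤ 4 * C0 * (4 * C0 * M.q x (g j)) :=
          mul_le_mul_of_nonneg_left b3 (by linarith)
        have h4 : 16 * C0 ^ 2 * M.q x (g j) * 1 ≤ 16 * C0 ^ 2 * M.q x (g j) * 2 ^ (j - i) :=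
          mul_le_mul_of_nonneg_left hpd1 (by positivity)
        linarith
      · show M.q x (g j) ≤ 16 * C0 ^ 2 * 2 ^ (j - i) * M.q x (g i)
        have h3 : 4 * C0 * 2 ^ (j - i) * 2 ^ i ≤ 4 * C0 * 2 ^ (j - i) * (4 * C0 * M.q x (g i)) :=
          mul_le_mul_of_nonneg_left a3 (by positivity)
        rw [hpj] at b2
        linarith
    have h2 : (2 : ℝ) ^ (j - i) ≤ 64 * C0 ^ 2 * M.q (g i) (g j) := by
      have h3 := M.q_tri x (g i) (g j)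
      have h4 : 4 * C0 * M.q x (g j) ≤ 4 * C0 * (4 * (M.q x (g i) * M.q (g i) (g j))) :=
        mul_le_mul_of_nonneg_left h3 (by linarith)
      have h5 : M.q x (g i) * M.q (g i) (g j) ≤ 4 * C0 * 2 ^ i * M.q (g i) (g j) :=
        mul_le_mul_of_nonneg_right a2 (by linarith)
      have h6 : 16 * C0 * (M.q x (g i) * M.q (g i) (g j)) ≤
          16 * C0 * (4 * C0 * 2 ^ i * M.q (g i) (g j)) :=
        mul_le_mul_of_nonneg_left h5 (by linarith)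
      have h7 : (2 : ℝ) ^ i * 2 ^ (j - i) ≤ 2 ^ i * (64 * C0 ^ 2 * M.q (g i) (g j)) := by
        rw [← hpj]
        linarith
      exact le_of_mul_le_mul_left h7 hpi
    constructor
    · refine (hqi1 (g i) (g j)).trans ?_
      have h3 : M.q (g i) (g j) ^ L ≤ (64 * C0 ^ 4 * 2 ^ (j - i)) ^ L := by
        refine pow_le_pow_left₀ (by linarith) (h1.trans (le_of_eq ?_)) L
        ring
      have h4 : (64 * C0 ^ 4 * (2 : ℝ) ^ (j - i)) ^ L =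
          (64 * C0 ^ 4) ^ L * 2 ^ (L * (j - i)) := by
        rw [mul_pow (64 * C0 ^ 4) ((2 : ℝ) ^ (j - i)) L, ← pow_mul, mul_comm (j - i) L]
      rw [h4] at h3
      rw [mul_assoc]
      exact mul_le_mul_of_nonneg_left h3 (by linarith)
    · have h3 := hqi2 (g i) (g j)
      have h4 : 64 * C0 ^ 2 * M.q (g i) (g j) ≤
          64 * C0 ^ 2 * (A * M.q (Φ (g i)) (Φ (g j)) ^ L) :=
        mul_le_mul_of_nonneg_left h3 (by positivity)
      have h5 : 64 * C0 ^ 2 ≤ (64 * C0 ^ 4) ^ L := by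
        refine le_trans ?_ (le_self_pow₀ (by linarith) (by omega))
        linarith
      have hqp : 0 ≤ A * M.q (Φ (g i)) (Φ (g j)) ^ L := by
        have := M.one_le_q (Φ (g i)) (Φ (g j))
        positivity
      have h6 := mul_le_mul_of_nonneg_right h5 hqp
      calc (2 : ℝ) ^ (j - i) ≤ 64 * C0 ^ 2 * (A * M.q (Φ (g i)) (Φ (g j)) ^ L) := h2.trans h4
        _ ≤ (64 * C0 ^ 4) ^ L * (A * M.q (Φ (g i)) (Φ (g j)) ^ L) := h6
        _ = A * (64 * C0 ^ 4) ^ L * M.q (Φ (g i)) (Φ (g j)) ^ L := by ring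
  -- the index
  have hxz := M.one_le_q x z
  have hzy := M.one_le_q z y
  have hxz2 : M.q x z ≤ C1 * 2 ^ m := by
    have h1 : M.q x z * M.q z y ≤ C1 * M.q x y := hz'
    have h2 : M.q x z * 1 ≤ M.q x z * M.q z y := mul_le_mul_of_nonneg_left hzy (by linarith)
    have h3 : C1 * M.q x y ≤ C1 * 2 ^ m := mul_le_mul_of_nonneg_left hxy (by linarith)
    linarith
  obtain ⟨k', hk1, hk2⟩ := exists_nat_pow_near hxz (one_lt_two : (1 : ℝ) < 2)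
  obtain ⟨k, hkm, hk3, hk4⟩ : ∃ k ≤ m, (2 : ℝ) ^ k ≤ M.q x z ∧ M.q x z ≤ 2 * C1 * 2 ^ k := by
    by_cases h : k' ≤ m
    · refine ⟨k', h, hk1, ?_⟩
      rw [pow_succ] at hk2
      have hp : (0 : ℝ) < 2 ^ k' := by positivity
      nlinarith
    · refine ⟨m, le_rfl, (pow_le_pow_right₀ one_le_two (by omega)).trans hk1, ?_⟩
      have hp : (0 : ℝ) < 2 ^ m := by positivity
      nlinarith
  obtain ⟨a1, a2, a3⟩ := hg k hkm
  have hzk : M.q z (g k) ≤ 4 * C1 * (8 * C1 * C0) := by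
    refine ratio (M.pt_hyp x) (M.pt_hyp z) (M.pt_hyp (g k)) (M.pt_cone y) hz'
      (Bt_mono hC1b (M.pt_cone x) (M.pt_cone y) a1) ?_ ?_
    · show M.q x z ≤ 8 * C1 * C0 * M.q x (g k)
      have h1 : 2 * C1 * 2 ^ k ≤ 2 * C1 * (4 * C0 * M.q x (g k)) :=
        mul_le_mul_of_nonneg_left a3 (by linarith)
      linarith
    · show M.q x (g k) ≤ 8 * C1 * C0 * M.q x z
      have h1 : 4 * C0 * 2 ^ k ≤ 4 * C0 * M.q x z := mul_le_mul_of_nonneg_left hk3 (by linarith)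
      have h2 : 4 * C0 * M.q x z * 1 ≤ 4 * C0 * M.q x z * (2 * C1) :=
        mul_le_mul_of_nonneg_left (by linarith) (by positivity)
      linarith
  have hc3 : M.q (Φ z) (Φ (g k)) ≤ A * (4 * C1 * (8 * C1 * C0)) ^ L := by
    refine (hqi1 z (g k)).trans ?_
    exact mul_le_mul_of_nonneg_left (pow_le_pow_left₀ (by linarith [M.one_le_q z (g k)]) hzk L)
      (by linarith)
  set c3 : ℝ := A * (4 * C1 * (8 * C1 * C0)) ^ L with hc3d
  have hB := hCB m _ hQG k hkm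
  rw [hg0, hgm] at hB
  have hB' : M.q (Φ x) (Φ (g k)) * M.q (Φ (g k)) (Φ y) ≤ CB * M.q (Φ x) (Φ y) := hB
  have p1 := M.one_le_q (Φ x) (Φ (g k))
  have p2 := M.one_le_q (Φ (g k)) (Φ y)
  have p3 := M.one_le_q (Φ z) (Φ y)
  have p4 := M.one_le_q (Φ z) (Φ (g k))
  have t1 : M.q (Φ x) (Φ z) ≤ 4 * c3 * M.q (Φ x) (Φ (g k)) := by
    have h1 := M.q_tri (Φ x) (Φ (g k)) (Φ z)
    rw [M.q_symm (Φ (g k)) (Φ z)] at h1
    have h2 : M.q (Φ x) (Φ (g k)) * M.q (Φ z) (Φ (g k)) ≤ M.q (Φ x) (Φ (g k)) * c3 :=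
      mul_le_mul_of_nonneg_left hc3 (by linarith)
    linarith
  have t2 : M.q (Φ z) (Φ y) ≤ 4 * c3 * M.q (Φ (g k)) (Φ y) := by
    have h1 := M.q_tri (Φ z) (Φ (g k)) (Φ y)
    have h2 : M.q (Φ z) (Φ (g k)) * M.q (Φ (g k)) (Φ y) ≤ c3 * M.q (Φ (g k)) (Φ y) :=
      mul_le_mul_of_nonneg_right hc3 (by linarith)
    linarith
  have hc30 : 0 ≤ c3 := by linarith
  show M.q (Φ x) (Φ z) * M.q (Φ z) (Φ y) ≤ 16 * c3 ^ 2 * CB * M.q (Φ x) (Φ y)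
  calc M.q (Φ x) (Φ z) * M.q (Φ z) (Φ y) ≤
        (4 * c3 * M.q (Φ x) (Φ (g k))) * (4 * c3 * M.q (Φ (g k)) (Φ y)) :=
        mul_le_mul t1 t2 (by linarith) (by positivity)
    _ = 16 * c3 ^ 2 * (M.q (Φ x) (Φ (g k)) * M.q (Φ (g k)) (Φ y)) := by ring
    _ ≤ 16 * c3 ^ 2 * (CB * M.q (Φ x) (Φ y)) :=
        mul_le_mul_of_nonneg_left hB' (by positivity)
    _ = 16 * c3 ^ 2 * CB * M.q (Φ x) (Φ y) := by ring

end Model

end Pool.Agent.Work.MP_d3656f_al
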